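import Mathlib

/-!
Matchings in bipartite graphs given by a relation, alternating closures, and rayless relations.
No matroid appears in this file.
-/

open Set Function

namespace MinPres

section Rel

variable {V : Type*}

/-- The relation `r` restricted to the vertex set `P`. -/
def Within (r : V → V → Prop) (P : Set V) (a b : V) : Prop := r a b ∧ a ∈ P ∧ b ∈ P

/-- Reachability inside `P`. -/
def Rch (r : V → V → Prop) (P : Set V) (a b : V) : Prop := Relation.ReflTransGen (Within r P) a b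

/-- No forward ray. -/
def NoRay (r : V → V → Prop) : Prop :=
  ∀ s : ℕ → V, Injective s → ¬ ∀ n, r (s n) (s (n + 1))

variable {r : V → V → Prop} {P Q : Set V} {a b c : V}

theorem Rch.refl (r : V → V → Prop) (P : Set V) (a : V) : Rch r P a a :=
  Relation.ReflTransGen.refl

theorem Rch.trans (h : Rch r P a b) (h' : Rch r P b c) : Rch r P a c :=
  Relation.ReflTransGen.trans h h'

theorem Rch.single (h : r a b) (ha : a ∈ P) (hb : b ∈ P) : Rch r P a b :=
  Relation.ReflTransGen.single ⟨h, ha, hb⟩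

theorem Rch.head (h : r a b) (ha : a ∈ P) (hb : b ∈ P) (h' : Rch r P b c) : Rch r P a c :=
  Relation.ReflTransGen.head ⟨h, ha, hb⟩ h'

theorem Rch.tail (h' : Rch r P a b) (h : r b c) (hb : b ∈ P) (hc : c ∈ P) : Rch r P a c :=
  Relation.ReflTransGen.tail h' ⟨h, hb, hc⟩

theorem Rch.mono (h : Rch r P a b) (hPQ : P ⊆ Q) : Rch r Q a b := by
  induction h with
  | refl => exact Rch.refl _ _ _
  | tail _ h ih => exact Rch.tail ih h.1 (hPQ h.2.1) (hPQ h.2.2)

theorem Rch.mem_right (h : Rch r P a b) (ha : a ∈ P) : b ∈ P := by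
  induction h with
  | refl => exact ha
  | tail _ h _ => exact h.2.2

theorem Rch.finite_support (h : Rch r P a b) (ha : a ∈ P) :
    ∃ Q : Set V, Q.Finite ∧ Q ⊆ P ∧ a ∈ Q ∧ b ∈ Q ∧ ∀ p ∈ Q, Rch r Q a p := by
  induction h with
  | refl =>
    refine ⟨{a}, finite_singleton a, singleton_subset_iff.2 ha, rfl, rfl, ?_⟩
    rintro p rfl
    exact Rch.refl _ _ _
  | @tail b c _ h ih =>
    obtain ⟨Q, hQ, hQP, haQ, hbQ, hr⟩ := ih
    refine ⟨insert c Q, hQ.insert c, insert_subset h.2.2 hQP, Or.inr haQ, Or.inl rfl, ?_⟩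
    rintro p (rfl | hp)
    · exact ((hr b hbQ).mono (subset_insert _ _)).tail h.1 (Or.inr hbQ) (Or.inl rfl)
    · exact (hr p hp).mono (subset_insert _ _)

theorem Rch.last_visit (h : Rch r P a b) (v : V) (hb : b ≠ v) :
    (a ≠ v ∧ Rch r (P \ {v}) a b) ∨
      ∃ u, r v u ∧ u ∈ P ∧ u ≠ v ∧ Rch r (P \ {v}) u b := by
  induction h using Relation.ReflTransGen.head_induction_on with
  | refl => exact Or.inl ⟨hb, Rch.refl _ _ _⟩
  | @head a c hac _ ih =>
    rcases ih with ⟨hc, ih⟩ | ih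
    · by_cases ha : a = v
      · subst ha
        exact Or.inr ⟨c, hac.1, hac.2.2, hc, ih⟩
      · exact Or.inl ⟨ha, Rch.head hac.1 ⟨hac.2.1, ha⟩ ⟨hac.2.2, hc⟩ ih⟩
    · exact Or.inr ih

theorem Rch.first_step (h : Rch r P a b) (hb : b ≠ a) :
    ∃ u, r a u ∧ u ∈ P ∧ u ≠ a ∧ Rch r (P \ {a}) u b := by
  rcases h.last_visit a hb with ⟨h1, _⟩ | h
  · exact absurd rfl h1
  · exact h

theorem Rch.hit (h : Rch r P a b) (ha : a ∈ P) (Z : Set V) :
    (a ∉ Z ∧ Rch r (P \ Z) a b) ∨ ∃ z ∈ Z, z ∈ P ∧ Rch r P a z ∧ Rch r P z b := by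
  induction h using Relation.ReflTransGen.head_induction_on with
  | refl =>
    by_cases hb : b ∈ Z
    · exact Or.inr ⟨b, hb, ha, Rch.refl _ _ _, Rch.refl _ _ _⟩
    · exact Or.inl ⟨hb, Rch.refl _ _ _⟩
  | @head a c hac hcb ih =>
    by_cases haZ : a ∈ Z
    · exact Or.inr ⟨a, haZ, ha, Rch.refl _ _ _, Rch.head hac.1 hac.2.1 hac.2.2 hcb⟩
    rcases ih hac.2.2 with ⟨hc, ih⟩ | ⟨z, hz, hzP, h1, h2⟩
    · exact Or.inl ⟨haZ, Rch.head hac.1 ⟨hac.2.1, haZ⟩ ⟨hac.2.2, hc⟩ ih⟩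
    · exact Or.inr ⟨z, hz, hzP, Rch.head hac.1 hac.2.1 hac.2.2 h1, h2⟩

theorem NoRay.not_good (hr : NoRay r) (Good : Set V → V → Prop)
    (step : ∀ Z v, Z.Finite → v ∉ Z → Good Z v →
      ∃ u, r v u ∧ u ∉ insert v Z ∧ Good (insert v Z) u)
    (Z : Set V) (v : V) (hZ : Z.Finite) (hv : v ∉ Z) : ¬ Good Z v := by
  intro hG
  let T := {p : Set V × V // p.1.Finite ∧ p.2 ∉ p.1 ∧ Good p.1 p.2}
  have hstep : ∀ p : T, ∃ q : T, r p.1.2 q.1.2 ∧ q.1.1 = insert p.1.2 p.1.1 := by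
    rintro ⟨⟨Z, v⟩, h1, h2, h3⟩
    obtain ⟨u, hu1, hu2, hu3⟩ := step Z v h1 h2 h3
    exact ⟨⟨(insert v Z, u), h1.insert v, hu2, hu3⟩, hu1, rfl⟩
  choose nx hnx using hstep
  let s : ℕ → T := fun n => nx^[n] ⟨(Z, v), hZ, hv, hG⟩
  have hs : ∀ n, s (n + 1) = nx (s n) := fun n => iterate_succ_apply' _ _ _
  have hmono : ∀ m n, m < n → (s m).1.2 ∈ (s n).1.1 := by
    intro m n hmn
    induction n with
    | zero => omega
    | succ n ih =>
      rw [hs, (hnx _).2]
      rcases Nat.lt_succ_iff_lt_or_eq.1 hmn with h | h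
      · exact Or.inr (ih h)
      · subst h; exact Or.inl rfl
  refine hr (fun n => (s n).1.2) ?_ ?_
  · intro m n hmn
    by_contra hne
    rcases lt_or_gt_of_ne hne with h | h
    · have := hmono m n h
      simp only at hmn
      rw [hmn] at this
      exact (s n).2.2.1 this
    · have := hmono n m h
      simp only at hmn
      rw [← hmn] at this
      exact (s m).2.2.1 this
  · intro n
    show r (s n).1.2 (s (n + 1)).1.2
    rw [hs]
    exact (hnx _).1

theorem orbit_inj {τ : V → V} {Ψ S : Set V} (hinj : InjOn τ Ψ) (hS : ∀ y ∈ Ψ, τ y ∉ S)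
    {x x' : V} (hx : x ∈ S) (hx' : x' ∈ S) :
    ∀ a b : ℕ, (∀ j < a, τ^[j] x ∈ Ψ) → (∀ j < b, τ^[j] x' ∈ Ψ) → τ^[a] x = τ^[b] x' →
      a = b ∧ x = x' := by
  intro a
  induction a with
  | zero =>
    intro b _ hb h
    cases b with
    | zero => exact ⟨rfl, h⟩
    | succ b =>
      rw [iterate_succ_apply'] at h
      have := hS _ (hb b (Nat.lt_succ_self b))
      rw [← h] at this
      exact absurd hx this
  | succ a ih =>
    intro b ha hb h
    cases b with
    | zero =>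
      rw [iterate_succ_apply'] at h
      have := hS _ (ha a (Nat.lt_succ_self a))
      rw [h] at this
      exact absurd hx' this
    | succ b =>
      rw [iterate_succ_apply', iterate_succ_apply'] at h
      have h2 := hinj (ha a (Nat.lt_succ_self a)) (hb b (Nat.lt_succ_self b)) h
      obtain ⟨h3, h4⟩ := ih b (fun j hj => ha j (by omega)) (fun j hj => hb j (by omega)) h2
      exact ⟨by omega, h4⟩

theorem orbit_exit (hr : NoRay r) {τ : V → V} {Ψ S : Set V} (hinj : InjOn τ Ψ)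
    (hS : ∀ y ∈ Ψ, τ y ∉ S) (hτ : ∀ y ∈ Ψ, r y (τ y)) {x : V} (hx : x ∈ S) :
    ∃ k : ℕ, (∀ j < k, τ^[j] x ∈ Ψ) ∧ τ^[k] x ∉ Ψ := by
  classical
  have hex : ∃ k : ℕ, τ^[k] x ∉ Ψ := by
    by_contra hall
    push Not at hall
    refine hr (fun n => τ^[n] x) ?_ ?_
    · intro a b hab
      exact (orbit_inj hinj hS hx hx a b (fun j _ => hall j) (fun j _ => hall j) hab).1
    · intro n
      show r (τ^[n] x) (τ^[n + 1] x)
      rw [iterate_succ_apply']
      exact hτ _ (hall n)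
  refine ⟨Nat.find hex, fun j hj => ?_, Nat.find_spec hex⟩
  have := Nat.find_min hex hj
  exact not_not.1 this

theorem orbit_count (hr : NoRay r) {τ : V → V} {Ψ S F : Set V} (hinj : InjOn τ Ψ)
    (hS : ∀ y ∈ Ψ, τ y ∉ S) (hτ : ∀ y ∈ Ψ, r y (τ y)) (hF : ∀ y ∈ Ψ, τ y ∈ Ψ ∪ F) :
    (S ∩ Ψ).encard ≤ F.encard := by
  have h : ∀ x : V, ∃ k : ℕ, x ∈ S → (∀ j < k, τ^[j] x ∈ Ψ) ∧ τ^[k] x ∉ Ψ := by
    intro x
    by_cases hx : x ∈ S
    · obtain ⟨k, hk⟩ := orbit_exit hr hinj hS hτ hx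
      exact ⟨k, fun _ => hk⟩
    · exact ⟨0, fun h => absurd h hx⟩
  choose k hk using h
  refine encard_le_encard_of_injOn (f := fun x => τ^[k x] x) ?_ ?_
  · rintro x ⟨hxS, hxΨ⟩
    obtain ⟨h1, h2⟩ := hk x hxS
    show τ^[k x] x ∈ F
    cases hkx : k x with
    | zero => rw [hkx] at h2; exact absurd hxΨ h2
    | succ n =>
      rw [hkx] at h1 h2
      rw [iterate_succ_apply'] at h2 ⊢
      rcases hF _ (h1 n (Nat.lt_succ_self n)) with h | h
      · exact absurd h h2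
      · exact h
  · rintro x ⟨hxS, _⟩ y ⟨hyS, _⟩ hxy
    exact (orbit_inj hinj hS hxS hyS _ _ (hk x hxS).1 (hk y hyS).1 hxy).2

/-- A locally finite walk through infinitely many vertices contains a ray. -/
theorem NoRay.not_walk (hr : NoRay r) (o : ℕ → V) (P : ℕ → Set V)
    (hmem : ∀ i, o i ∈ P i) (hP : ∀ i, Rch r (P i) (o i) (o (i + 1)))
    (hloc : ∀ v, {i | v ∈ P i}.Finite) : False := by
  have hchain : ∀ (Z : Set V) (n : ℕ), (∀ i ≥ n, Disjoint (P i) Z) →
      ∀ k ≥ n, Rch r Zᶜ (o n) (o k) := by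
    intro Z n hZ k hk
    induction k, hk using Nat.le_induction with
    | base => exact Rch.refl _ _ _
    | succ k hk ih => exact ih.trans ((hP k).mono (hZ k hk).subset_compl_right)
  have hfar : ∀ Z : Set V, Z.Finite → ∃ n, ∀ i ≥ n, Disjoint (P i) Z := by
    intro Z hZ
    have : (⋃ v ∈ Z, {i | v ∈ P i}).Finite := hZ.biUnion fun v _ => hloc v
    obtain ⟨n, hn⟩ := this.bddAbove
    refine ⟨n + 1, fun i hi => disjoint_left.2 fun v hv hvZ => ?_⟩
    have := hn (mem_biUnion hvZ (show i ∈ {i | v ∈ P i} from hv))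
    omega
  refine hr.not_good (fun Z v => ∃ n, ∀ k ≥ n, Rch r Zᶜ v (o k)) ?_ ∅ (o 0) finite_empty
    (notMem_empty _) ⟨0, hchain ∅ 0 (fun i _ => disjoint_empty _)⟩
  rintro Z v hZ hv ⟨n, hn⟩
  obtain ⟨n', hn'⟩ := hfar (insert v Z) (hZ.insert v)
  have h1 := hn (max n n') (le_max_left _ _)
  have hne : o (max n n') ≠ v := by
    intro h
    exact disjoint_left.1 (hn' _ (le_max_right _ _)) (hmem _) (Or.inl h)
  obtain ⟨u, hu1, hu2, hu3, hu4⟩ := h1.first_step hne
  have hset : Zᶜ \ {v} = (insert v Z)ᶜ := by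
    ext x; simp [and_comm]
  rw [hset] at hu4
  refine ⟨u, hu1, ?_, max n n', fun k hk => hu4.trans ?_⟩
  · rintro (h | h)
    · exact hu3 h
    · exact hu2 h
  · exact hchain _ _ (fun i hi => hn' i (le_trans (le_max_right _ _) hi)) k hk

end Rel

section Match

variable {V W : Type*}

/-- `f` matches `I`. -/
def IsMat (G : V → W → Prop) (I : Set V) (f : V → W) : Prop :=
  InjOn f I ∧ ∀ v ∈ I, G v (f v)

/-- `I` is matchable. -/
def Mat (G : V → W → Prop) (I : Set V) : Prop := ∃ f, IsMat G I f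

/-- Neighbourhood of a set of right vertices. -/
def Nb (G : V → W → Prop) (R : Set W) : Set V := {v | ∃ w ∈ R, G v w}

/-- The exchange digraph of a matching. -/
def Dg (G : V → W → Prop) (I : Set V) (f : V → W) (u u' : V) : Prop := u' ∈ I ∧ G u (f u')

/-- Right vertices reachable from `S` along alternating paths. -/
inductive Cl (G : V → W → Prop) (J : Set V) (f : V → W) (S : Set W) : W → Prop
  | base {w : W} : w ∈ S → Cl G J f S w
  | step {v : V} {w : W} : v ∈ J → G v w → Cl G J f S w → Cl G J f S (f v)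

/-- Auxiliary predicate for the augmentation lemma. -/
inductive AugQ (G : V → W → Prop) (J : Set V) (f : V → W) (R : W → Prop) : W → Prop
  | mk (w : W) (g : V → W) (hg : IsMat G J g) (hw : w ∉ g '' J)
      (h1 : ∀ u ∈ J, g u ≠ f u → R (g u))
      (h2 : ∀ u ∈ J, g u ≠ f u → f u ≠ w → AugQ G J f R (f u)) : AugQ G J f R w

variable {G : V → W → Prop} {I J X : Set V} {f g : V → W}

theorem IsMat.mono (h : IsMat G I f) (hJ : J ⊆ I) : IsMat G J f :=
  ⟨h.1.mono hJ, fun v hv => h.2 v (hJ hv)⟩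

theorem Mat.mono (h : Mat G I) (hJ : J ⊆ I) : Mat G J :=
  let ⟨f, hf⟩ := h
  ⟨f, hf.mono hJ⟩

theorem IsMat.update [DecidableEq V] (hg : IsMat G J g) {v : V} {w : W} (hw : w ∉ g '' J)
    (hvw : G v w) : IsMat G (insert v J) (update g v w) := by
  constructor
  · intro a ha b hb hab
    by_cases hav : a = v <;> by_cases hbv : b = v
    · rw [hav, hbv]
    · subst hav
      rw [update_self, update_of_ne hbv] at hab
      exact absurd ⟨b, hb.resolve_left hbv, hab.symm⟩ hw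
    · subst hbv
      rw [update_self, update_of_ne hav] at hab
      exact absurd ⟨a, ha.resolve_left hav, hab⟩ hw
    · rw [update_of_ne hav, update_of_ne hbv] at hab
      exact hg.1 (ha.resolve_left hav) (hb.resolve_left hbv) hab
  · intro a ha
    by_cases hav : a = v
    · subst hav; rw [update_self]; exact hvw
    · rw [update_of_ne hav]; exact hg.2 a (ha.resolve_left hav)

theorem aug (hf : IsMat G J f) {S : Set W} (hS : ∀ w ∈ S, w ∉ f '' J) {w : W}
    (hw : Cl G J f S w) :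
    ∃ g, IsMat G J g ∧ w ∉ g '' J ∧ ∀ u ∈ J, g u = f u ∨ Cl G J f S (g u) := by
  classical
  have key : AugQ G J f (Cl G J f S) w := by
    induction hw with
    | @base w hw =>
      exact AugQ.mk w f hf (hS w hw) (fun u _ h => absurd rfl h) (fun u _ h => absurd rfl h)
    | @step v w hv hvw hw ih =>
      have ih' := ih
      obtain ⟨_, g, hg, hwg, h1, h2⟩ := ih
      by_cases hgv : g v = f v
      · have hg' : IsMat G J (update g v w) := (hg.update hwg hvw).mono (subset_insert _ _)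
        refine AugQ.mk (f v) (update g v w) hg' ?_ ?_ ?_
        · rintro ⟨u, hu, hu'⟩
          by_cases huv : u = v
          · subst huv
            rw [update_self] at hu'
            exact hwg ⟨u, hu, by rw [hgv, hu']⟩
          · rw [update_of_ne huv, ← hgv] at hu'
            exact huv (hg.1 hu hv hu')
        · intro u hu hne
          by_cases huv : u = v
          · subst huv; rw [update_self]; exact hw
          · rw [update_of_ne huv] at hne ⊢; exact h1 u hu hne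
        · intro u hu hne hne'
          by_cases huv : u = v
          · subst huv; exact absurd rfl hne'
          · rw [update_of_ne huv] at hne
            by_cases hfu : f u = w
            · rw [hfu]; exact ih'
            · exact h2 u hu hne hfu
      · by_cases hfv : f v = w
        · rw [hfv]; exact ih'
        · exact h2 v hv hgv hfv
  obtain ⟨_, g, hg, hwg, h1, _⟩ := key
  refine ⟨g, hg, hwg, fun u hu => ?_⟩
  by_cases h : g u = f u
  · exact Or.inl h
  · exact Or.inr (h1 u hu h)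

/-- Two matchings, one into `R` and one outside `R`, combine. -/
theorem IsMat.combine {A : Set V} [DecidablePred (· ∈ A)] {R : Set W} (hf : IsMat G (X ∩ A) f)
    (hg : IsMat G (X \ A) g) (h1 : ∀ v ∈ X ∩ A, f v ∈ R) (h2 : ∀ v ∈ X \ A, g v ∉ R) :
    IsMat G X (A.piecewise f g) := by
  constructor
  · intro a ha b hb hab
    by_cases haA : a ∈ A <;> by_cases hbA : b ∈ A
    · rw [piecewise_eq_of_mem _ _ _ haA, piecewise_eq_of_mem _ _ _ hbA] at hab
      exact hf.1 ⟨ha, haA⟩ ⟨hb, hbA⟩ hab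
    · rw [piecewise_eq_of_mem _ _ _ haA, piecewise_eq_of_notMem _ _ _ hbA] at hab
      exact absurd (hab ▸ h1 a ⟨ha, haA⟩) (h2 b ⟨hb, hbA⟩)
    · rw [piecewise_eq_of_notMem _ _ _ haA, piecewise_eq_of_mem _ _ _ hbA] at hab
      exact absurd (hab ▸ h1 b ⟨hb, hbA⟩) (h2 a ⟨ha, haA⟩)
    · rw [piecewise_eq_of_notMem _ _ _ haA, piecewise_eq_of_notMem _ _ _ hbA] at hab
      exact hg.1 ⟨ha, haA⟩ ⟨hb, hbA⟩ hab
  · intro a ha
    by_cases haA : a ∈ A
    · rw [piecewise_eq_of_mem _ _ _ haA]; exact hf.2 a ⟨ha, haA⟩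
    · rw [piecewise_eq_of_notMem _ _ _ haA]; exact hg.2 a ⟨ha, haA⟩

theorem patch {B P : Set V} {m : V → W} (hm : IsMat G B m) {x t : V} (hx : x ∉ B) (ht : t ∈ B)
    (htP : t ∈ P) (h : Rch (Dg G B m) P x t) :
    ∃ g, IsMat G (insert x ((P ∩ B) \ {t})) g ∧
      ∀ v ∈ insert x ((P ∩ B) \ {t}), g v ∈ m '' (P ∩ B) := by
  classical
  set J := (P ∩ B) \ {t} with hJ
  have hmJ : IsMat G J m := hm.mono fun v hv => hv.1.2
  have hS : ∀ w ∈ ({m t} : Set W), w ∉ m '' J := by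
    rintro w rfl ⟨u, hu, hu'⟩
    exact hu.2 (hm.1 hu.1.2 ht hu')
  have h1 : ∀ a, Rch (Dg G B m) P a t → a = t ∨ ∃ w, Cl G J m {m t} w ∧ G a w := by
    intro a ha
    induction ha using Relation.ReflTransGen.head_induction_on with
    | refl => exact Or.inl rfl
    | @head a c hac _ ih =>
      right
      by_cases hct : c = t
      · subst hct
        exact ⟨m c, Cl.base rfl, hac.1.2⟩
      · obtain ⟨w, hw, hcw⟩ := ih.resolve_left hct
        exact ⟨m c, Cl.step ⟨⟨hac.2.2, hac.1.1⟩, hct⟩ hcw hw, hac.1.2⟩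
  have h2 : ∀ w, Cl G J m {m t} w → w ∈ m '' (P ∩ B) := by
    intro w hw
    cases hw with
    | base hw => exact ⟨t, ⟨htP, ht⟩, hw.symm⟩
    | step hv _ _ => exact ⟨_, hv.1, rfl⟩
  obtain ⟨w, hw, hxw⟩ := (h1 x h).resolve_left (fun e => hx (e ▸ ht))
  obtain ⟨g, hg, hwg, hg'⟩ := aug hmJ hS hw
  refine ⟨update g x w, hg.update hwg hxw, fun v hv => ?_⟩
  by_cases hvx : v = x
  · subst hvx; rw [update_self]; exact h2 w hw
  · rw [update_of_ne hvx]
    have hvJ : v ∈ J := hv.resolve_left hvx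
    rcases hg' v hvJ with h | h
    · rw [h]; exact ⟨v, hvJ.1, rfl⟩
    · exact h2 _ h

theorem glue {B : Set V} {m : V → W} (hm : IsMat G B m) (P : V → Set V) (t : V → V)
    (ht : ∀ x ∈ X \ B, t x ∈ B \ X) (hxP : ∀ x ∈ X \ B, x ∈ P x)
    (hr : ∀ x ∈ X \ B, Rch (Dg G B m) (P x) x (t x))
    (hd : ∀ x ∈ X \ B, ∀ y ∈ X \ B, ∀ v, v ∈ P x → v ∈ P y → x = y) : Mat G X := by
  classical
  have h : ∀ x : V, ∃ g : V → W, x ∈ X \ B → IsMat G (insert x ((P x ∩ B) \ {t x})) g ∧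
      ∀ v ∈ insert x ((P x ∩ B) \ {t x}), g v ∈ m '' (P x ∩ B) := by
    intro x
    by_cases hx : x ∈ X \ B
    · obtain ⟨g, hg⟩ := patch hm hx.2 (ht x hx).1 ((hr x hx).mem_right (hxP x hx)) (hr x hx)
      exact ⟨g, fun _ => hg⟩
    · exact ⟨m, fun h => absurd h hx⟩
  choose g hg using h
  have hin : ∀ x ∈ X \ B, ∀ v ∈ X, v ∈ P x → v ∈ insert x ((P x ∩ B) \ {t x}) := by
    intro x hx v hv hvP
    by_cases hvB : v ∈ B
    · refine Or.inr ⟨⟨hvP, hvB⟩, fun e => (ht x hx).2 ?_⟩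
      rw [mem_singleton_iff] at e
      exact e ▸ hv
    · exact Or.inl (hd v ⟨hv, hvB⟩ x hx v (hxP v ⟨hv, hvB⟩) hvP)
  let ψ : V → W := fun v => if h : ∃ x ∈ X \ B, v ∈ P x then g h.choose v else m v
  have hψ1 : ∀ v, (∃ x ∈ X \ B, v ∈ P x) → ∃ x ∈ X \ B, v ∈ P x ∧ ψ v = g x v := by
    intro v h
    exact ⟨h.choose, h.choose_spec.1, h.choose_spec.2, dif_pos h⟩
  have hψ2 : ∀ v, ¬ (∃ x ∈ X \ B, v ∈ P x) → ψ v = m v := fun v h => dif_neg h
  have hB : ∀ v ∈ X, ¬ (∃ x ∈ X \ B, v ∈ P x) → v ∈ B := by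
    intro v hv h
    by_contra hvB
    exact h ⟨v, ⟨hv, hvB⟩, hxP v ⟨hv, hvB⟩⟩
  refine ⟨ψ, ?_, ?_⟩
  · intro a ha b hb hab
    by_cases h1 : ∃ x ∈ X \ B, a ∈ P x <;> by_cases h2 : ∃ x ∈ X \ B, b ∈ P x
    · obtain ⟨x, hx, hax, e1⟩ := hψ1 a h1
      obtain ⟨y, hy, hby, e2⟩ := hψ1 b h2
      obtain ⟨u, hu, hu'⟩ := (hg x hx).2 a (hin x hx a ha hax)
      obtain ⟨u', hv, hv'⟩ := (hg y hy).2 b (hin y hy b hb hby)
      have huu : u = u' := hm.1 hu.2 hv.2 (by rw [hu', hv', ← e1, ← e2, hab])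
      subst huu
      have hxy := hd x hx y hy u hu.1 hv.1
      subst hxy
      exact (hg x hx).1.1 (hin x hx a ha hax) (hin x hx b hb hby) (by rw [← e1, ← e2, hab])
    · obtain ⟨x, hx, hax, e1⟩ := hψ1 a h1
      obtain ⟨u, hu, hu'⟩ := (hg x hx).2 a (hin x hx a ha hax)
      have : u = b := hm.1 hu.2 (hB b hb h2) (by rw [hu', ← e1, hab, hψ2 b h2])
      subst this
      exact absurd ⟨x, hx, hu.1⟩ h2
    · obtain ⟨x, hx, hbx, e1⟩ := hψ1 b h2
      obtain ⟨u, hu, hu'⟩ := (hg x hx).2 b (hin x hx b hb hbx)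
      have : u = a := hm.1 hu.2 (hB a ha h1) (by rw [hu', ← e1, ← hab, hψ2 a h1])
      subst this
      exact absurd ⟨x, hx, hu.1⟩ h1
    · rw [hψ2 a h1, hψ2 b h2] at hab
      exact hm.1 (hB a ha h1) (hB b hb h2) hab
  · intro a ha
    by_cases h1 : ∃ x ∈ X \ B, a ∈ P x
    · obtain ⟨x, hx, hax, e1⟩ := hψ1 a h1
      rw [e1]
      exact (hg x hx).1.2 a (hin x hx a ha hax)
    · rw [hψ2 a h1]
      exact hm.2 a (hB a ha h1)

end Match

end MinPres
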