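import Pool.Agent.Lib.MP_0776bc_co.Region

/-!
The hub lemma: along a nonprincipal ultrafilter of targets, a finite set of vertices stops
every source from reaching many targets.  Consequence: limit boundaries are finite.
-/

open Set Function Filter

namespace MinPres

variable {V W : Type*}

section Rel

variable {r : V → V → Prop} {𝒰 : Ultrafilter ℕ} {t : ℕ → V}

/-- `v` reaches many targets while avoiding `Z`. -/
def Big (r : V → V → Prop) (𝒰 : Ultrafilter ℕ) (t : ℕ → V) (Z : Set V) (v : V) : Prop :=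
  ∀ᶠ i in (𝒰 : Filter ℕ), Rch r Zᶜ v (t i)

/-- No finite set cuts `v` from many targets. -/
def Hub (r : V → V → Prop) (𝒰 : Ultrafilter ℕ) (t : ℕ → V) (v : V) : Prop :=
  ∀ Z : Set V, Z.Finite → v ∉ Z → Big r 𝒰 t Z v

theorem eventually_notMem (hU : (𝒰 : Filter ℕ) ≤ cofinite) (ht : Injective t) {Z : Set V}
    (hZ : Z.Finite) : ∀ᶠ i in (𝒰 : Filter ℕ), t i ∉ Z := by
  refine hU ?_
  show {i | t i ∉ Z}ᶜ.Finite
  refine (hZ.preimage ht.injOn).subset fun i hi => ?_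
  simpa using hi

theorem exists_hub (hr : NoRay r) (hU : (𝒰 : Filter ℕ) ≤ cofinite) (ht : Injective t)
    {F : Set V} (hF : F.Finite) {v : V} (hvF : v ∉ F) (hv : Big r 𝒰 t F v) :
    ∃ u, Hub r 𝒰 t u ∧ Rch r Fᶜ v u := by
  by_contra hno
  push Not at hno
  refine hr.not_good (fun Z u => F ⊆ Z ∧ Rch r Fᶜ v u ∧ Big r 𝒰 t Z u) ?_ F v hF hvF
    ⟨Subset.rfl, Rch.refl _ _ _, hv⟩
  rintro Z u hZ huZ ⟨hFZ, hvu, hu⟩
  have hnh : ¬ Hub r 𝒰 t u := fun hh => hno u hh hvu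
  unfold Hub at hnh
  push Not at hnh
  obtain ⟨Z', hZ', huZ', hnb⟩ := hnh
  have hset : Zᶜ \ {u} = (insert u Z)ᶜ := by
    ext x; simp [and_comm]
  have h1 : ∀ᶠ i in (𝒰 : Filter ℕ), ¬ Rch r Z'ᶜ u (t i) := Ultrafilter.eventually_not.2 hnb
  have h2 := eventually_notMem hU ht (finite_singleton u)
  have h3 : ∀ᶠ i in (𝒰 : Filter ℕ), ∃ z ∈ Z', ∃ u', r u u' ∧ u' ∉ insert u Z ∧
      Rch r (insert u Z)ᶜ u' z ∧ Rch r (insert u Z)ᶜ z (t i) := by
    filter_upwards [hu, h1, h2] with i hi hi1 hi2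
    obtain ⟨u', h4, h5, h6, h7⟩ := hi.first_step hi2
    rw [hset] at h7
    have h8 : u' ∉ insert u Z := fun hh => hh.elim h6 h5
    rcases h7.hit h8 Z' with ⟨h9, h10⟩ | ⟨z, hz, _, h9, h10⟩
    · exact absurd (Rch.head h4 huZ' h9 (h10.mono fun x hx => hx.2)) hi1
    · exact ⟨z, hz, u', h4, h8, h9, h10⟩
  obtain ⟨z, _, hz⟩ := (Ultrafilter.eventually_exists_mem_iff hZ').1 h3
  obtain ⟨i, u', h4, h5, h6, _⟩ := hz.exists
  refine ⟨u', h4, h5, hFZ.trans (subset_insert _ _), ?_, ?_⟩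
  · exact hvu.tail h4 (fun hh => huZ (hFZ hh)) (fun hh => h5 (Or.inr (hFZ hh)))
  · filter_upwards [hz] with j ⟨_, _, _, _, hj⟩
    exact h6.trans hj

end Rel

/-- One stage of the half-graph construction. -/
structure Stage (V : Type*) where
  a : V
  h : V
  Q : Set V
  t : V
  P : V → Set V
  S : Set V

variable {M : Matroid V} {G : V → W → Prop} {I B X : Set V} {f g m : V → W}
  {𝒰 : Ultrafilter ℕ}

namespace Ctx

theorem hub_cut (h : Ctx M G) (hI : M.IsBase I) (hf : IsMat G I f)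
    (hU : (𝒰 : Filter ℕ) ≤ cofinite) {t : ℕ → V} (ht : Injective t) (htI : ∀ i, t i ∈ I) :
    ∃ F : Set V, F.Finite ∧ ∀ a, M.Indep {a} → a ∉ I → a ∉ F → ∀ u,
      Hub (Dg G I f) 𝒰 t u → ¬ Rch (Dg G I f) Fᶜ a u := by
  classical
  by_contra hno
  push Not at hno
  set r := Dg G I f with hr
  obtain ⟨s, hs1, hs2⟩ := exists_seq_of_forall_finset_exists
    (fun y : Stage V => y.S.Finite ∧ y.Q ⊆ y.S ∧ (∀ u, y.P u ⊆ y.S) ∧ y.t ∈ y.S ∧
      (∀ u, ∀ v ∈ y.P u, v ∈ y.Q → v = u) ∧ y.a ∉ I ∧ M.Indep {y.a} ∧ y.a ∈ y.Q ∧ y.h ∈ y.Q ∧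
      Rch r y.Q y.a y.h ∧ Hub r 𝒰 t y.h ∧ y.t ∈ I)
    (fun x y => (∀ v ∈ y.Q, v ∉ x.S) ∧ y.t ∉ x.S ∧ Rch r (y.P x.h) x.h y.t ∧
      ∀ u, ∀ v ∈ y.P u, v ∈ x.S → v = u) (by
      intro s hs
      set Z : Set V := ⋃ x ∈ s, x.S with hZ
      have hZf : Z.Finite := s.finite_toSet.biUnion fun x hx => (hs x hx).1
      obtain ⟨a, ha1, ha2, ha3, u, hu, hau⟩ := hno Z hZf
      obtain ⟨Q, hQf, hQZ, haQ, huQ, hQr⟩ := hau.finite_support ha3
      have hev : ∀ᶠ i in (𝒰 : Filter ℕ), ∀ x ∈ s, Rch r ((Z ∪ Q) \ {x.h})ᶜ x.h (t i) := by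
        rw [eventually_all_finset]
        intro x hx
        exact (hs x hx).2.2.2.2.2.2.2.2.2.2.1 _ ((hZf.union hQf).subset sdiff_subset)
          (fun hh => hh.2 rfl)
      obtain ⟨i, hi1, hi2⟩ := (hev.and (eventually_notMem hU ht hZf)).exists
      have hP : ∀ u' : V, ∃ P : Set V, P.Finite ∧ P ⊆ ((Z ∪ Q) \ {u'})ᶜ ∧
          ∀ x ∈ s, x.h = u' → Rch r P u' (t i) := by
        intro u'
        by_cases hex : ∃ x ∈ s, x.h = u'
        · obtain ⟨x, hx, rfl⟩ := hex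
          obtain ⟨P, h1, h2, _, h4, h5⟩ := (hi1 x hx).finite_support (fun hh => hh.2 rfl)
          exact ⟨P, h1, h2, fun _ _ _ => h5 _ h4⟩
        · exact ⟨∅, finite_empty, empty_subset _, fun x hx e => absurd ⟨x, hx, e⟩ hex⟩
      choose P hP1 hP2 hP3 using hP
      let P' : V → Set V := fun u' => if ∃ x ∈ s, x.h = u' then P u' else ∅
      have hP'sub : ∀ u', P' u' ⊆ P u' := by
        intro u'
        simp only [P']
        split_ifs
        · exact Subset.rfl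
        · exact empty_subset _
      have hP'eq : ∀ x ∈ s, P' x.h = P x.h := fun x hx => if_pos ⟨x, hx, rfl⟩
      refine ⟨⟨a, u, Q, t i, P', Q ∪ {t i} ∪ ⋃ x ∈ s, P x.h⟩,
        ⟨?_, ?_, ?_, ?_, ?_, ha2, ha1, haQ, huQ, hQr u huQ, hu, htI i⟩, ?_⟩
      · exact (hQf.union (finite_singleton _)).union
          (s.finite_toSet.biUnion fun x _ => hP1 _)
      · exact subset_union_left.trans subset_union_left
      · intro u' v hv
        by_cases hex : ∃ x ∈ s, x.h = u'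
        · obtain ⟨x, hx, rfl⟩ := hex
          exact Or.inr (mem_biUnion hx (hP'sub _ hv))
        · exact absurd hv (by simp [P', hex])
      · exact Or.inl (Or.inr rfl)
      · intro u' v hv hvQ
        by_contra hne
        exact hP2 u' (hP'sub _ hv) ⟨Or.inr hvQ, hne⟩
      · intro x hx
        refine ⟨fun v hv hvx => hQZ hv (mem_biUnion hx hvx), fun hh => hi2 (mem_biUnion hx hh),
          ?_, ?_⟩
        · show Rch r (P' x.h) x.h (t i)
          rw [hP'eq x hx]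
          exact hP3 _ x hx rfl
        · intro u' v hv hvx
          by_contra hne
          exact hP2 u' (hP'sub _ hv) ⟨Or.inl (mem_biUnion hx hvx), hne⟩)
  have hQS : ∀ n, (s n).Q ⊆ (s n).S := fun n => (hs1 n).2.1
  have hPS : ∀ n u, (s n).P u ⊆ (s n).S := fun n => (hs1 n).2.2.1
  have htS : ∀ n, (s n).t ∈ (s n).S := fun n => (hs1 n).2.2.2.1
  have hPQ : ∀ n u, ∀ v ∈ (s n).P u, v ∈ (s n).Q → v = u := fun n => (hs1 n).2.2.2.2.1
  have haI : ∀ n, (s n).a ∉ I := fun n => (hs1 n).2.2.2.2.2.1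
  have haE : ∀ n, M.Indep {(s n).a} := fun n => (hs1 n).2.2.2.2.2.2.1
  have haQ : ∀ n, (s n).a ∈ (s n).Q := fun n => (hs1 n).2.2.2.2.2.2.2.1
  have hhQ : ∀ n, (s n).h ∈ (s n).Q := fun n => (hs1 n).2.2.2.2.2.2.2.2.1
  have hah : ∀ n, Rch r (s n).Q (s n).a (s n).h := fun n => (hs1 n).2.2.2.2.2.2.2.2.2.1
  have htI' : ∀ n, (s n).t ∈ I := fun n => (hs1 n).2.2.2.2.2.2.2.2.2.2.2
  have hQQ : ∀ j k v, v ∈ (s j).Q → v ∈ (s k).Q → j = k := by
    intro j k v h1 h2
    by_contra hne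
    rcases lt_or_gt_of_ne hne with hlt | hlt
    · exact (hs2 j k hlt).1 v h2 (hQS j h1)
    · exact (hs2 k j hlt).1 v h1 (hQS k h2)
  have hainj : Injective fun n => (s n).a := fun j k e =>
    hQQ j k _ (haQ j) (by simp only at e; rw [e]; exact haQ k)
  have htinj : Injective fun n => (s n).t := by
    intro j k e
    simp only at e
    by_contra hne
    rcases lt_or_gt_of_ne hne with hlt | hlt
    · exact (hs2 j k hlt).2.1 (e ▸ htS j)
    · exact (hs2 k j hlt).2.1 (e ▸ htS k)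
  have hPQ' : ∀ k j j' v, v ∈ (s k).P (s j).h → v ∈ (s j').Q → j = j' := by
    intro k j j' v h1 h2
    rcases lt_trichotomy j' k with hlt | rfl | hlt
    · have := (hs2 j' k hlt).2.2.2 _ v h1 (hQS j' h2)
      exact hQQ j j' v (this ▸ hhQ j) h2
    · have := hPQ _ _ v h1 h2
      exact hQQ j j' v (this ▸ hhQ j) h2
    · exact absurd (hPS k _ h1) ((hs2 k j' hlt).1 v h2)
  have hPP : ∀ k k' j j' v, k < k' → v ∈ (s k).P (s j).h → v ∈ (s k').P (s j').h → j = j' := by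
    intro k k' j j' v hk h1 h2
    have := (hs2 k k' hk).2.2.2 _ v h2 (hPS k _ h1)
    exact hPQ' k j j' v h1 (this ▸ hhQ j')
  set A : Set V := range fun n => (s n).a with hA
  have link : ∀ K : Set ℕ, K.Infinite → Mat G (A ∪ (I \ (fun n => (s n).t) '' K)) := by
    intro K hK
    obtain ⟨κ, hκ, hκK⟩ := extraction_of_frequently_atTop
      (Nat.frequently_atTop_iff_infinite.2 hK)
    have hκlt : ∀ j, j < κ (j + 1) := fun j => hκ.id_le (j + 1)
    let ix : V → ℕ := invFun fun n => (s n).a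
    have hix : ∀ n, ix (s n).a = n := fun n => leftInverse_invFun hainj n
    have hXA : ∀ x ∈ (A ∪ (I \ (fun n => (s n).t) '' K)) \ I, ∃ n, x = (s n).a := by
      rintro x ⟨hx | hx, hx'⟩
      · obtain ⟨n, rfl⟩ := hx; exact ⟨n, rfl⟩
      · exact absurd hx.1 hx'
    refine glue hf (fun x => (s (ix x)).Q ∪ (s (κ (ix x + 1))).P (s (ix x)).h)
      (fun x => (s (κ (ix x + 1))).t) ?_ ?_ ?_ ?_
    · intro x hx
      refine ⟨htI' _, ?_⟩
      rintro (⟨n, hn⟩ | hh)
      · exact haI n (by simp only at hn; rw [hn]; exact htI' _)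
      · exact hh.2 ⟨_, hκK _, rfl⟩
    · intro x hx
      obtain ⟨n, rfl⟩ := hXA x hx
      rw [hix]
      exact Or.inl (haQ n)
    · intro x hx
      obtain ⟨n, rfl⟩ := hXA x hx
      rw [hix]
      exact ((hah n).mono subset_union_left).trans
        ((hs2 n _ (hκlt n)).2.2.1.mono subset_union_right)
    · intro x hx y hy v h1 h2
      obtain ⟨n, rfl⟩ := hXA x hx
      obtain ⟨n', rfl⟩ := hXA y hy
      rw [hix] at h1 h2
      have : n = n' := by
        rcases h1 with h1 | h1 <;> rcases h2 with h2 | h2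
        · exact hQQ _ _ v h1 h2
        · exact (hPQ' _ _ _ v h2 h1).symm
        · exact hPQ' _ _ _ v h1 h2
        · rcases lt_trichotomy n n' with hlt | e | hlt
          · exact hPP _ _ _ _ v (hκ (Nat.succ_lt_succ hlt)) h1 h2
          · exact e
          · exact (hPP _ _ _ _ v (hκ (Nat.succ_lt_succ hlt)) h2 h1).symm
      rw [this]
  have hXE : I ∪ A ⊆ M.E := by
    refine union_subset hI.subset_ground ?_
    rintro _ ⟨n, rfl⟩
    exact (haE n).subset_ground rfl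
  obtain ⟨I₁, hI₁, hsub⟩ := ((h.ind _).2 (link univ infinite_univ)).subset_isBasis_of_subset
    (X := I ∪ A) (union_subset subset_union_right (sdiff_subset.trans subset_union_left)) hXE
  have hI₁B : M.IsBase I₁ := hI.isBase_of_isBasis_superset subset_union_left hI₁
  have hcard := hI₁B.encard_sdiff_comm hI
  have hAinf : (I₁ \ I).Infinite := by
    refine (infinite_range_of_injective hainj).mono ?_
    rintro _ ⟨n, rfl⟩
    exact ⟨hsub (Or.inl ⟨n, rfl⟩), haI n⟩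
  have hTinf : (I \ I₁).Infinite := by
    rw [← encard_eq_top_iff, ← hcard, encard_eq_top_iff]
    exact hAinf
  have hKinf : {n | (s n).t ∉ I₁}.Infinite := by
    refine Infinite.of_image (fun n => (s n).t) (hTinf.mono ?_)
    rintro v ⟨hv, hv'⟩
    by_contra hn
    refine hv' (hsub (Or.inr ⟨hv, ?_⟩))
    rintro ⟨n, -, rfl⟩
    exact hn ⟨n, hv', rfl⟩
  obtain ⟨k, hk⟩ := hKinf.nonempty
  have hlink := link _ (hKinf.sdiff (finite_singleton k))
  have hins : M.Indep (insert (s k).t I₁) := by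
    refine ((h.ind _).2 hlink).subset ?_
    rintro v (rfl | hv)
    · refine Or.inr ⟨htI' k, ?_⟩
      rintro ⟨n, hn, e⟩
      exact hn.2 (htinj e)
    · rcases hI₁.subset hv with h1 | h1
      · refine Or.inr ⟨h1, ?_⟩
        rintro ⟨n, hn, rfl⟩
        exact hn.1 hv
      · exact Or.inl h1
  exact hk (hI₁.mem_of_insert_indep (Or.inl (htI' k)) hins)

end Ctx

end MinPres
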