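import Pool.Agent.Lib.MP_0776bc_co.Hub

/-!
The canonical presentation `Gc` presents the same matroid and is minimal.
-/

open Set Function Filter

namespace MinPres

variable {V W : Type*} {M : Matroid V} {G : V → W → Prop} {I B X : Set V} {f g m : V → W}
  {𝒰 : Ultrafilter ℕ}

namespace Ctx

theorem exists_inv (h : Ctx M G) (hB : M.IsBase B) (hm : IsMat G B m) :
    ∃ p : W → V, ∀ w, p w ∈ B ∧ m (p w) = w := by
  have := h.onto hB hm
  choose p hp using this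
  exact ⟨p, hp⟩

theorem indep_of_adj (h : Ctx M G) {v : V} {w : W} (hvw : G v w) : M.Indep {v} :=
  (h.ind _).2 ⟨fun _ => w, injOn_singleton _ _, by rintro _ rfl; exact hvw⟩

/-- At most `|F|` boundary vertices are cut from the centre of a region by `F`. -/
theorem cut_card (h : Ctx M G) (hI : M.IsBase I) (hf : IsMat G I f) {t : V} (ht : t ∈ I)
    {F : Set V} (htF : t ∉ F) :
    {v | v ∈ Sg M G I f (f t) ∧ v ∉ F ∧ ¬ Rch (Dg G I f) Fᶜ v t}.encard ≤ F.encard := by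
  obtain ⟨p, hp⟩ := h.exists_inv hI hf
  obtain ⟨I₁, f₁, hI₁, hf₁, h1, h2⟩ := h.Rh_spec (f t)
  set Ψ : Set V := {v | v ∈ Nb G (Rh M G (f t)) ∧ v ∉ F ∧ ¬ Rch (Dg G I f) Fᶜ v t} with hΨ
  have hΨI : ∀ v ∈ Ψ, v ∈ I₁ := fun v hv =>
    h2 v hv.1 fun hh => hv.2.2 (Rch.single ⟨ht, hh⟩ hv.2.1 htF)
  have hR : ∀ v ∈ Ψ, f (p (f₁ v)) ∈ Rh M G (f t) := fun v hv => by
    rw [(hp _).2]; exact h1 v (hΨI v hv) hv.1
  have hD : ∀ v ∈ Ψ, Dg G I f v (p (f₁ v)) := fun v hv =>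
    ⟨(hp _).1, by rw [(hp _).2]; exact hf₁.2 v (hΨI v hv)⟩
  have key := orbit_count (h.noray hI hf) (τ := fun v => p (f₁ v)) (Ψ := Ψ)
    (S := Sg M G I f (f t)) (F := F) ?_ ?_ hD ?_
  · refine le_trans (encard_le_encard ?_) key
    exact fun v hv => ⟨hv.1, hv.1.1, hv.2.1, hv.2.2⟩
  · intro a ha b hb hab
    refine hf₁.1 (hΨI a ha) (hΨI b hb) ?_
    rw [← (hp (f₁ a)).2, ← (hp (f₁ b)).2]
    exact congrArg f hab
  · exact fun v hv hh => hh.2 ⟨(hp _).1, hR v hv⟩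
  · intro v hv
    by_cases hF : p (f₁ v) ∈ F
    · exact Or.inr hF
    · exact Or.inl ⟨⟨_, hR v hv, hf.2 _ (hp _).1⟩, hF,
        fun hh => hv.2.2 (Rch.head (hD v hv) hv.2.1 hF hh)⟩

/-- A set `Ψ` inside a base whose in-neighbours lie in `Ψ ∪ F` has at most `|F|` elements
outside any other base. -/
theorem closed_card (h : Ctx M G) (hf : IsMat G I f) {Ψ F S I₂ : Set V} (hΨ : Ψ ⊆ I)
    (hI₂ : M.IsBase I₂) (hS : ∀ v ∈ S, v ∉ I₂)
    (hcl : ∀ y ∈ Ψ, ∀ v ∈ I₂, G v (f y) → v ∈ Ψ ∪ F) : (S ∩ Ψ).encard ≤ F.encard := by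
  obtain ⟨f₂, hf₂⟩ := (h.ind _).1 hI₂.indep
  obtain ⟨p, hp⟩ := h.exists_inv hI₂ hf₂
  refine orbit_count (h.noray hI₂ hf₂) (τ := fun v => p (f v)) ?_ ?_ ?_ ?_
  · intro a ha b hb hab
    refine hf.1 (hΨ ha) (hΨ hb) ?_
    rw [← (hp (f a)).2, ← (hp (f b)).2]
    exact congrArg f₂ hab
  · exact fun y _ hh => hS _ hh (hp _).1
  · exact fun y hy => ⟨(hp _).1, by rw [(hp _).2]; exact hf.2 y (hΨ hy)⟩
  · intro y hy
    refine hcl y hy _ (hp _).1 ?_
    have := hf₂.2 _ (hp (f y)).1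
    rwa [(hp _).2] at this

theorem finite_lim (h : Ctx M G) (hI : M.IsBase I) (hf : IsMat G I f)
    (hU : (𝒰 : Filter ℕ) ≤ cofinite) {w : ℕ → W} (hw : Injective w) :
    {v | ∀ᶠ i in (𝒰 : Filter ℕ), v ∈ Sg M G I f (w i)}.Finite := by
  classical
  obtain ⟨p, hp⟩ := h.exists_inv hI hf
  have ht : Injective fun i => p (w i) := by
    intro i j e
    apply hw
    rw [← (hp (w i)).2, ← (hp (w j)).2]
    exact congrArg f e
  obtain ⟨F, hF, hcut⟩ := h.hub_cut hI hf hU ht fun i => (hp _).1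
  by_contra hinf
  obtain ⟨S₀, hS₀, hcard⟩ := (Infinite.sdiff hinf hF).exists_subset_card_eq (2 * F.ncard + 1)
  have hev1 : ∀ᶠ i in (𝒰 : Filter ℕ), ∀ v ∈ S₀, v ∈ Sg M G I f (w i) := by
    rw [eventually_all_finset]
    exact fun v hv => (hS₀ hv).1
  have hev2 : ∀ᶠ i in (𝒰 : Filter ℕ), ∀ v ∈ S₀,
      Big (Dg G I f) 𝒰 (fun i => p (w i)) F v ∨ ¬ Rch (Dg G I f) Fᶜ v (p (w i)) := by
    rw [eventually_all_finset]
    intro v _
    by_cases hb : Big (Dg G I f) 𝒰 (fun i => p (w i)) F v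
    · exact Eventually.of_forall fun _ => Or.inl hb
    · exact (Ultrafilter.eventually_not.2 hb).mono fun _ hh => Or.inr hh
  obtain ⟨i, ⟨hi1, hi2⟩, hi3⟩ := ((hev1.and hev2).and (eventually_notMem hU ht hF)).exists
  have c1 := h.cut_card hI hf (hp (w i)).1 hi3
  rw [(hp _).2] at c1
  obtain ⟨I₂, hI₂, hI₂'⟩ := h.coindep hI hf (w i)
  set Ψ : Set V := {v | v ∈ I ∧ v ∉ F ∧
    ∀ a, M.Indep {a} → a ∉ I → a ∉ F → ¬ Rch (Dg G I f) Fᶜ a v} with hΨ
  have c2 := h.closed_card hf (Ψ := Ψ) (F := F) (fun v hv => hv.1) hI₂ hI₂' (by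
    intro y hy v _ hvy
    by_cases hvF : v ∈ F
    · exact Or.inr hvF
    left
    refine ⟨?_, hvF, fun a ha1 ha2 ha3 hh => hy.2.2 a ha1 ha2 ha3
      (hh.tail ⟨hy.1, hvy⟩ hvF hy.2.1)⟩
    by_contra hvI
    exact hy.2.2 v (h.indep_of_adj hvy) hvI hvF (Rch.single ⟨hy.1, hvy⟩ hvF hy.2.1))
  have hsub : (S₀ : Set V) ⊆
      {v | v ∈ Sg M G I f (w i) ∧ v ∉ F ∧ ¬ Rch (Dg G I f) Fᶜ v (p (w i))} ∪
        (Sg M G I f (w i) ∩ Ψ) := by
    intro v hv
    have hvF : v ∉ F := (hS₀ hv).2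
    rcases hi2 v hv with hb | hb
    · right
      obtain ⟨u, hu, hvu⟩ := exists_hub (h.noray hI hf) hU ht hF hvF hb
      refine ⟨hi1 v hv, ?_, hvF, fun a ha1 ha2 ha3 hh => hcut a ha1 ha2 ha3 u hu (hh.trans hvu)⟩
      by_contra hvI
      obtain ⟨w', _, hvw'⟩ := (hi1 v hv).1
      exact hcut v (h.indep_of_adj hvw') hvI hvF u hu hvu
    · exact Or.inl ⟨hi1 v hv, hvF, hb⟩
  have c3 := (encard_le_encard hsub).trans ((encard_union_le _ _).trans (add_le_add c1 c2))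
  rw [encard_coe_eq_coe_finsetCard, hcard, ← hF.cast_ncard_eq] at c3
  norm_cast at c3
  omega

/-- Every independent set is matchable in the canonical presentation. -/
theorem mat_Gc (h : Ctx M G) (hB : M.IsBase B) (hm : IsMat G B m) (hX : M.Indep X) :
    Mat (Gc M G B m) X := by
  classical
  obtain ⟨f, hf⟩ := (h.ind _).1 hX
  obtain ⟨p, hp⟩ := h.exists_inv hB hm
  set τ : V → V := fun v => p (f v) with hτ
  have hinj : InjOn τ X := by
    intro a ha b hb hab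
    refine hf.1 ha hb ?_
    rw [← (hp (f a)).2, ← (hp (f b)).2]
    exact congrArg m hab
  have hS : ∀ y ∈ X, τ y ∉ Bᶜ := fun y _ hh => hh (hp _).1
  have hD : ∀ y ∈ X, Dg G B m y (τ y) := fun y hy =>
    ⟨(hp _).1, by rw [(hp _).2]; exact hf.2 y hy⟩
  have hk : ∀ x : V, ∃ k : ℕ, x ∈ Bᶜ → (∀ j < k, τ^[j] x ∈ X) ∧ τ^[k] x ∉ X := by
    intro x
    by_cases hx : x ∈ Bᶜ
    · obtain ⟨k, hk⟩ := orbit_exit (h.noray hB hm) hinj hS hD hx
      exact ⟨k, fun _ => hk⟩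
    · exact ⟨0, fun hh => absurd hh hx⟩
  choose k hk using hk
  have hBs : ∀ x j, τ^[j + 1] x ∈ B := fun x j => by
    rw [iterate_succ_apply']; exact (hp _).1
  refine glue (B := B) (m := m) ⟨hm.1, fun v hv => Or.inl ⟨hv, rfl⟩⟩
    (fun x => {v | ∃ j ≤ k x, τ^[j] x = v}) (fun x => τ^[k x] x) ?_ ?_ ?_ ?_
  · intro x hx
    obtain ⟨h1, h2⟩ := hk x hx.2
    refine ⟨?_, h2⟩
    cases hkx : k x with
    | zero => rw [hkx] at h2; exact absurd hx.1 h2
    | succ n => exact hBs x n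
  · exact fun x _ => ⟨0, Nat.zero_le _, rfl⟩
  · intro x hx
    obtain ⟨h1, -⟩ := hk x hx.2
    suffices hh : ∀ j ≤ k x, Rch (Dg (Gc M G B m) B m) {v | ∃ j ≤ k x, τ^[j] x = v} x
      (τ^[j] x) from hh _ le_rfl
    intro j
    induction j using Nat.strong_induction_on with
    | _ j ih =>
      intro hj
      cases j with
      | zero => exact Rch.refl _ _ _
      | succ j =>
        have hex : ∃ i, m (τ^[i + 1] x) ∈ Rh M G (m (τ^[j + 1] x)) := ⟨j, h.mem_Rh _⟩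
        have hij : Nat.find hex ≤ j := Nat.find_min' hex (h.mem_Rh _)
        have hspec := Nat.find_spec hex
        have hmin : ∀ i < Nat.find hex, m (τ^[i + 1] x) ∉ Rh M G (m (τ^[j + 1] x)) :=
          fun i hi => Nat.find_min hex hi
        generalize Nat.find hex = i at hij hspec hmin
        refine (ih i (by omega) (by omega)).tail ⟨hBs x j, Or.inr ⟨⟨_, hspec, ?_⟩, ?_⟩⟩
          ⟨i, by omega, rfl⟩ ⟨j + 1, hj, rfl⟩
        · rw [iterate_succ_apply']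
          exact (hD _ (h1 i (by omega))).2
        · cases i with
          | zero => exact fun hh => hx.2 hh.1
          | succ i => exact fun hh => hmin i (Nat.lt_succ_self i) hh.2
  · rintro x hx y hy v ⟨a, ha, e1⟩ ⟨b, hb, e2⟩
    exact (orbit_inj hinj hS hx.2 hy.2 a b (fun j hj => (hk x hx.2).1 j (by omega))
      (fun j hj => (hk y hy.2).1 j (by omega)) (e1.trans e2.symm)).2

/-- Every set matchable in the canonical presentation is independent. -/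
theorem indep_of_mat_Gc (h : Ctx M G) (hB : M.IsBase B) (hm : IsMat G B m)
    (hX : Mat (Gc M G B m) X) : M.Indep X := by
  classical
  obtain ⟨μ, hμ⟩ := hX
  obtain ⟨J, hJ⟩ := M.exists_isBasis' X
  by_contra hdep
  obtain ⟨o, hoX, hoJ⟩ : ∃ o ∈ X, o ∉ J := by
    by_contra hn
    push Not at hn
    exact hdep (hJ.indep.subset hn)
  obtain ⟨I, hI, hJI⟩ := hJ.indep.exists_isBase_superset
  obtain ⟨f, hf⟩ := (h.ind _).1 hI.indep
  obtain ⟨p, hp⟩ := h.exists_inv hI hf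
  have hno : ¬ M.Indep (insert o J) := fun hh => hoJ (by
    rw [hJ.eq_of_subset_indep hh (subset_insert _ _) (insert_subset hoX hJ.subset)]
    exact Or.inl rfl)
  have hoI : o ∉ I := fun hh => hno (hI.indep.subset (insert_subset hh hJI))
  have hfwd : ∀ t ∈ I, Rch (Dg G I f) univ o t → t ∈ J := by
    intro t ht hr
    by_contra htJ
    obtain ⟨g, hg, -⟩ := patch hf hoI ht (mem_univ _) hr
    refine hno (((h.ind _).2 ⟨g, hg⟩).subset (insert_subset_insert fun v hv => ?_))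
    exact ⟨⟨mem_univ _, hJI hv⟩, fun e => htJ (e ▸ hv)⟩
  have hNb : ∀ v w, Gc M G B m v w → v ∈ Nb G (Rh M G w) := by
    rintro v w (hv | hv)
    · exact ⟨w, h.mem_Rh w, hv.2 ▸ hm.2 v hv.1⟩
    · exact hv.1
  set τ : V → V := fun v => p (μ v) with hτ
  have hin : ∀ v ∈ X, Rch (Dg G I f) (insert v (I ∩ f ⁻¹' Rh M G (μ v))) v (τ v) := by
    intro v hv
    have := h.inner_reach hI hf (hp (μ v)).1 (v := v) (by rw [(hp _).2]; exact hNb _ _ (hμ.2 v hv))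
    rwa [(hp _).2] at this
  set o' : ℕ → V := fun n => τ^[n] o with ho'
  have ho's : ∀ n, o' (n + 1) = τ (o' n) := fun n => iterate_succ_apply' _ _ _
  have hall : ∀ n, o' n ∈ X ∧ Rch (Dg G I f) univ o (o' n) := by
    intro n
    induction n with
    | zero => exact ⟨hoX, Rch.refl _ _ _⟩
    | succ n ih =>
      have h1 : Rch (Dg G I f) univ o (o' (n + 1)) := by
        rw [ho's]; exact ih.2.trans ((hin _ ih.1).mono (subset_univ _))
      exact ⟨hJ.subset (hfwd _ (by rw [ho's]; exact (hp _).1) h1), h1⟩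
  have hτinj : InjOn τ X := by
    intro a ha b hb hab
    refine hμ.1 ha hb ?_
    rw [← (hp (μ a)).2, ← (hp (μ b)).2]
    exact congrArg f hab
  have hoinj : Injective o' := fun a b hab =>
    (orbit_inj (S := Iᶜ) hτinj (fun y _ hh => hh (hp _).1) hoI hoI a b
      (fun j _ => (hall j).1) (fun j _ => (hall j).1) hab).1
  have hwinj : Injective fun n => μ (o' n) := fun a b hab =>
    hoinj (hμ.1 (hall a).1 (hall b).1 hab)
  have hP : ∀ n, ∃ P : Set V, o' n ∈ P ∧ Rch (Dg G I f) P (o' n) (o' (n + 1)) ∧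
      ∀ v ∈ P, v = o' n ∨ v = o' (n + 1) ∨ (o' n ∈ Sg M G B m (μ (o' n)) ∧ P.Finite ∧
        P ⊆ insert (o' n) (I ∩ f ⁻¹' Rh M G (μ (o' n))) ∧ Rch (Dg G I f) P (o' n) v) := by
    intro n
    rcases hμ.2 _ (hall n).1 with h1 | h1
    · refine ⟨{o' n, o' (n + 1)}, Or.inl rfl, Rch.single ?_ (Or.inl rfl) (Or.inr rfl), ?_⟩
      · rw [ho's]
        refine ⟨(hp _).1, ?_⟩
        rw [(hp _).2, ← h1.2]
        exact hm.2 _ h1.1
      · rintro v (hv | hv)
        · exact Or.inl hv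
        · exact Or.inr (Or.inl hv)
    · obtain ⟨P, h2, h3, h4, h5, h6⟩ := (hin _ (hall n).1).finite_support (Or.inl rfl)
      refine ⟨P, h4, by rw [ho's]; exact h6 _ h5, fun v hv => Or.inr (Or.inr ⟨h1, h2, h3, h6 v hv⟩)⟩
  choose P hP1 hP2 hP3 using hP
  refine (h.noray hI hf).not_walk o' P hP1 hP2 fun v => ?_
  by_contra hinf
  have hfin1 : {n | v = o' n}.Finite :=
    ((finite_singleton v).preimage hoinj.injOn).subset fun n hn => hn.symm
  have hfin2 : {n | v = o' (n + 1)}.Finite :=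
    ((finite_singleton v).preimage (f := fun n => o' (n + 1))
      (hoinj.comp Nat.succ_injective).injOn).subset fun n hn => hn.symm
  have hL := Infinite.sdiff (Infinite.sdiff hinf hfin1) hfin2
  set L := ({i | v ∈ P i} \ {n | v = o' n}) \ {n | v = o' (n + 1)} with hLdef
  have : (cofinite ⊓ 𝓟 L).NeBot := hL.cofinite_inf_principal_neBot
  let 𝒰 : Ultrafilter ℕ := Ultrafilter.of (cofinite ⊓ 𝓟 L)
  have hU : (𝒰 : Filter ℕ) ≤ cofinite := (Ultrafilter.of_le _).trans inf_le_left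
  have hUL : ∀ᶠ i in (𝒰 : Filter ℕ), i ∈ L :=
    le_principal_iff.1 ((Ultrafilter.of_le _).trans inf_le_right)
  have hL' : ∀ i ∈ L, o' i ∈ Sg M G B m (μ (o' i)) ∧ (P i).Finite ∧
      P i ⊆ insert (o' i) (I ∩ f ⁻¹' Rh M G (μ (o' i))) ∧ Rch (Dg G I f) (P i) (o' i) v :=
    fun i hi => ((hP3 i v hi.1.1).resolve_left hi.1.2).resolve_left hi.2
  set R : Set W := {w | ∀ᶠ i in (𝒰 : Filter ℕ), w ∈ Rh M G (μ (o' i))} with hR
  have hsplit : ∀ (I' : Set V) (f' : V → W), ∀ u ∈ Nb G R, (u ∈ I' ∧ f' u ∈ R) ∨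
      ∀ᶠ i in (𝒰 : Filter ℕ), u ∈ Sg M G I' f' (μ (o' i)) := by
    rintro I' f' u ⟨w, hw, huw⟩
    by_cases hu : u ∈ I' ∧ f' u ∈ R
    · exact Or.inl hu
    right
    by_cases huI : u ∈ I'
    · have h1 : ¬ ∀ᶠ i in (𝒰 : Filter ℕ), f' u ∈ Rh M G (μ (o' i)) := fun hh => hu ⟨huI, hh⟩
      filter_upwards [hw, Ultrafilter.eventually_not.2 h1] with i hi hi'
      exact ⟨⟨w, hi, huw⟩, fun hh => hi' hh.2⟩
    · filter_upwards [hw] with i hi
      exact ⟨⟨w, hi, huw⟩, fun hh => huI hh.1⟩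
  have hfI := h.finite_lim hI hf hU hwinj
  have hfB := h.finite_lim hB hm hU hwinj
  have hvY : ∀ i ∈ L, v ∈ I ∩ f ⁻¹' Rh M G (μ (o' i)) := fun i hi =>
    ((hL' i hi).2.2.1 hi.1.1).resolve_left hi.1.2
  have hvR : f v ∈ R := hUL.mono fun i hi => (hvY i hi).2
  obtain ⟨i, ⟨⟨hi1, hi2⟩, hi3⟩, hi4⟩ := (((hUL.and
    ((eventually_all_finite hfI).2 fun u hu => hu)).and
    ((eventually_all_finite hfB).2 fun u hu => hu)).and
    (eventually_notMem hU hoinj hfB)).exists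
  obtain ⟨hS, -, hPsub, hrch⟩ := hL' i hi1
  have hback : ∀ u, Rch (Dg G I f) (P i) u v → u ∈ Nb G R ∨ o' i ∈ Nb G R := by
    intro u hu
    induction hu using Relation.ReflTransGen.head_induction_on with
    | refl => exact Or.inl ⟨f v, hvR, hf.2 v (hvY i hi1).1⟩
    | @head a c hac _ ih =>
      rcases ih with ih | ih
      · rcases hPsub hac.2.2 with e | hc
        · exact Or.inr (e ▸ ih)
        · rcases hsplit I f c ih with h1 | h1
          · exact Or.inl ⟨f c, h1.2, hac.1.2⟩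
          · exact absurd hc (hi2 c h1).2
      · exact Or.inr ih
  have hoN : o' i ∈ Nb G R := (hback _ hrch).elim id id
  have hoB := (hsplit B m _ hoN).resolve_right hi4
  obtain ⟨I₂, hI₂, hI₂'⟩ := h.coindep hB hm (μ (o' i))
  have c := h.closed_card hm (Ψ := B ∩ m ⁻¹' R) (F := ∅) inter_subset_left hI₂ hI₂' (by
    intro y hy u hu huy
    rcases hsplit B m u ⟨m y, hy.2, huy⟩ with h1 | h1
    · exact Or.inl h1
    · exact absurd hu (hI₂' u (hi3 u h1)))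
  rw [encard_empty, nonpos_iff_eq_zero, encard_eq_zero] at c
  exact (c ▸ (⟨hS, hoB⟩ : o' i ∈ Sg M G B m (μ (o' i)) ∩ (B ∩ m ⁻¹' R)) : o' i ∈ (∅ : Set V))

theorem ctx_Gc (h : Ctx M G) (hB : M.IsBase B) (hm : IsMat G B m) : Ctx M (Gc M G B m) where
  ind _ := ⟨h.mat_Gc hB hm, h.indep_of_mat_Gc hB hm⟩
  nocol := h.nocol
  nbr w := by
    obtain ⟨b, hb, e⟩ := h.onto hB hm w
    exact ⟨b, Or.inl ⟨hb, e⟩⟩

/-- A coloop-free matroid presented without isolated right vertices has a presentation in which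
every edge is needed by some base. -/
theorem exists_minimal (h : Ctx M G) : ∃ G' : V → W → Prop, (∀ I, M.Indep I ↔ Mat G' I) ∧
    ∀ v w, G' v w → ∃ I, M.Indep I ∧ ∀ g, IsMat G' I g → v ∈ I ∧ g v = w := by
  obtain ⟨B, hB⟩ := M.exists_isBase
  obtain ⟨m, hm⟩ := (h.ind _).1 hB.indep
  refine ⟨Gc M G B m, (h.ctx_Gc hB hm).ind, fun v w hvw => ?_⟩
  obtain ⟨I, hI, hI'⟩ := h.cocirc hB hm hvw
  refine ⟨I, hI.indep, fun g hg => ?_⟩
  obtain ⟨u, hu, e⟩ := (h.ctx_Gc hB hm).onto hI hg w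
  obtain rfl := hI' u hu (e ▸ hg.2 u hu)
  exact ⟨hu, e⟩

end Ctx

end MinPres
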