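import Pool.Agent.Lib.MP_0776bc_co.Basic

/-!
Presentations of coloop-free matroids: every base is matched onto the right side, exchange
digraphs have no forward ray, and each right vertex `w` lies in a least good set `Rh w`.
-/

open Set Function

namespace MinPres

variable {V W : Type*}

/-- `G` presents the coloop-free matroid `M` and has no isolated right vertex. -/
structure Ctx (M : Matroid V) (G : V → W → Prop) : Prop where
  ind : ∀ I, M.Indep I ↔ Mat G I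
  nocol : ∀ v, ∃ B, M.IsBase B ∧ v ∉ B
  nbr : ∀ w, ∃ v, G v w

/-- A set of right vertices whose complement is a face spanned by its own elements. -/
def Good (M : Matroid V) (G : V → W → Prop) (R : Set W) : Prop :=
  ∃ I f, M.IsBase I ∧ IsMat G I f ∧ ∀ v ∈ I, v ∈ Nb G R → f v ∈ R

/-- The least good set containing `w`. -/
def Rh (M : Matroid V) (G : V → W → Prop) (w : W) : Set W :=
  {w' | ∀ J, M.Indep J → (∀ v ∈ J, ¬ G v w) → ∃ g, IsMat G J g ∧ w' ∉ g '' J}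

variable {M : Matroid V} {G : V → W → Prop} {I J B X : Set V} {f g m : V → W}

/-- Neighbours of the alternating closure lie in a maximal matchable set. -/
theorem cl_nb_mem (hind : ∀ I, M.Indep I ↔ Mat G I) (hJ : M.IsBasis' J X) (hf : IsMat G J f)
    {S : Set W} (hS : ∀ w ∈ S, w ∉ f '' J) {v : V} (hvX : v ∈ X)
    (hv : v ∈ Nb G {w | Cl G J f S w}) : v ∈ J := by
  classical
  obtain ⟨w, hw, hvw⟩ := hv
  obtain ⟨g, hg, hwg, _⟩ := aug hf hS hw
  have h1 : M.Indep (insert v J) := (hind _).2 ⟨_, hg.update hwg hvw⟩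
  have := hJ.eq_of_subset_indep h1 (subset_insert _ _) (insert_subset hvX hJ.subset)
  rw [this]
  exact Or.inl rfl

theorem cl_miss (hind : ∀ I, M.Indep I ↔ Mat G I) (hJ : M.IsBasis' J X) (hf : IsMat G J f)
    {S : Set W} (hS : ∀ w ∈ S, w ∉ f '' J) {w : W} (hw : Cl G J f S w) {J' : Set V}
    (hJ' : M.Indep J') (hJX : J' ⊆ X) :
    ∃ g, IsMat G (J' ∪ (Nb G {w | Cl G J f S w} ∩ X)) g ∧
      w ∉ g '' (J' ∪ (Nb G {w | Cl G J f S w} ∩ X)) := by
  classical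
  set A := Nb G {w | Cl G J f S w} with hA
  obtain ⟨g, hg, hwg, hg'⟩ := aug hf hS hw
  obtain ⟨g', hg2⟩ := (hind _).1 hJ'
  have hsub : (J' ∪ (A ∩ X)) ∩ A ⊆ J := by
    rintro v ⟨hv, hvA⟩
    exact cl_nb_mem hind hJ hf hS (hv.elim (fun h => hJX h) fun h => h.2) hvA
  have hsub' : (J' ∪ (A ∩ X)) \ A ⊆ J' := by
    rintro v ⟨hv, hvA⟩
    exact hv.resolve_right fun h => hvA h.1
  have h1 : ∀ v ∈ (J' ∪ (A ∩ X)) ∩ A, g v ∈ {w | Cl G J f S w} := by
    intro v hv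
    rcases hg' v (hsub hv) with h | h
    · obtain ⟨w', hw', hvw'⟩ := hv.2
      show Cl G J f S (g v)
      rw [h]
      exact Cl.step (hsub hv) hvw' hw'
    · exact h
  have h2 : ∀ v ∈ (J' ∪ (A ∩ X)) \ A, g' v ∉ {w | Cl G J f S w} :=
    fun v hv h => hv.2 ⟨g' v, h, hg2.2 v (hsub' hv)⟩
  refine ⟨A.piecewise g g', (hg.mono hsub).combine (hg2.mono hsub') h1 h2, ?_⟩
  rintro ⟨v, hv, hv'⟩
  by_cases hvA : v ∈ A
  · rw [piecewise_eq_of_mem _ _ _ hvA] at hv'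
    exact hwg ⟨v, hsub ⟨hv, hvA⟩, hv'⟩
  · rw [piecewise_eq_of_notMem _ _ _ hvA] at hv'
    exact h2 v ⟨hv, hvA⟩ (hv' ▸ hw)

theorem isBasis'_univ_of_isBase (hB : M.IsBase B) : M.IsBasis' B univ := by
  rw [Matroid.isBasis'_iff_isBasis_inter_ground, univ_inter, Matroid.isBasis_ground_iff]
  exact hB

namespace Ctx

/-- Every matching of a base covers the right side. -/
theorem onto (h : Ctx M G) (hB : M.IsBase B) (hf : IsMat G B f) (w : W) : w ∈ f '' B := by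
  by_contra hw
  obtain ⟨v, hv⟩ := h.nbr w
  obtain ⟨B', hB', hvB'⟩ := h.nocol v
  have hS : ∀ w' ∈ ({w} : Set W), w' ∉ f '' B := by
    rintro w' rfl; exact hw
  obtain ⟨g, hg, -⟩ := cl_miss h.ind (isBasis'_univ_of_isBase hB) hf hS
    (Cl.base (mem_singleton w)) hB'.indep (subset_univ _)
  have h1 := hB'.eq_of_subset_indep ((h.ind _).2 ⟨g, hg⟩) subset_union_left
  apply hvB'
  rw [h1]
  exact Or.inr ⟨⟨w, Cl.base (mem_singleton w), hv⟩, mem_univ _⟩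

theorem noray (h : Ctx M G) (hB : M.IsBase B) (hf : IsMat G B f) : NoRay (Dg G B f) := by
  classical
  intro s hs hr
  let g : V → W := fun v => if h : ∃ n, s (n + 1) = v then f (s (h.choose + 2)) else f v
  have hg1 : ∀ n, g (s (n + 1)) = f (s (n + 2)) := by
    intro n
    have hex : ∃ k, s (k + 1) = s (n + 1) := ⟨n, rfl⟩
    have : hex.choose = n := by
      have := hs hex.choose_spec
      omega
    show (if h : ∃ k, s (k + 1) = s (n + 1) then f (s (h.choose + 2)) else f _) = _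
    rw [dif_pos hex, this]
  have hg2 : ∀ v, (¬ ∃ n, s (n + 1) = v) → g v = f v := fun v hv => dif_neg hv
  have hsB : ∀ n, s (n + 1) ∈ B := fun n => (hr n).1
  have hg : IsMat G B g := by
    constructor
    · intro a ha b hb hab
      by_cases h1 : ∃ n, s (n + 1) = a <;> by_cases h2 : ∃ n, s (n + 1) = b
      · obtain ⟨n, rfl⟩ := h1
        obtain ⟨k, rfl⟩ := h2
        rw [hg1, hg1] at hab
        have := hs (hf.1 (hsB _) (hsB _) hab)
        rw [show n = k by omega]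
      · obtain ⟨n, rfl⟩ := h1
        rw [hg1, hg2 b h2] at hab
        exact absurd ⟨n + 1, hf.1 (hsB _) hb hab⟩ h2
      · obtain ⟨n, rfl⟩ := h2
        rw [hg1, hg2 a h1] at hab
        exact absurd ⟨n + 1, hf.1 (hsB _) ha hab.symm⟩ h1
      · rw [hg2 a h1, hg2 b h2] at hab
        exact hf.1 ha hb hab
    · intro a ha
      by_cases h1 : ∃ n, s (n + 1) = a
      · obtain ⟨n, rfl⟩ := h1
        rw [hg1]
        exact (hr (n + 1)).2
      · rw [hg2 a h1]; exact hf.2 a ha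
  obtain ⟨v, hv, hv'⟩ := h.onto hB hg (f (s 1))
  by_cases h1 : ∃ n, s (n + 1) = v
  · obtain ⟨n, rfl⟩ := h1
    rw [hg1] at hv'
    have := hs (hf.1 (hsB _) (hsB 0) hv')
    omega
  · rw [hg2 v h1] at hv'
    exact h1 ⟨0, (hf.1 hv (hsB 0) hv').symm⟩

theorem mem_Rh (h : Ctx M G) (w : W) : w ∈ Rh M G w := by
  intro J hJ hJw
  obtain ⟨g, hg⟩ := (h.ind J).1 hJ
  refine ⟨g, hg, ?_⟩
  rintro ⟨v, hv, rfl⟩
  exact hJw v hv (hg.2 v hv)

/-- If `R` is good via `(I, f)`, every matching of `I \ Nb R` covers the complement of `R`. -/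
theorem crit (h : Ctx M G) {R : Set W} (hI : M.IsBase I) (hf : IsMat G I f)
    (hR : ∀ v ∈ I, v ∈ Nb G R → f v ∈ R) (hg : IsMat G (I \ Nb G R) g) {w : W} (hw : w ∉ R) :
    w ∈ g '' (I \ Nb G R) := by
  classical
  have h2 : ∀ v ∈ I \ Nb G R, g v ∉ R := fun v hv hv' => hv.2 ⟨g v, hv', hg.2 v hv⟩
  have h3 := (hf.mono inter_subset_left).combine hg (fun v hv => hR v hv.1 hv.2) h2
  obtain ⟨v, hv, hv'⟩ := h.onto hI h3 w
  by_cases hvA : v ∈ Nb G R
  · rw [piecewise_eq_of_mem _ _ _ hvA] at hv'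
    exact absurd (hv' ▸ hR v hv hvA) hw
  · rw [piecewise_eq_of_notMem _ _ _ hvA] at hv'
    exact ⟨v, ⟨hv, hvA⟩, hv'⟩

theorem Rh_subset (h : Ctx M G) {R : Set W} (hR : Good M G R) {w : W} (hw : w ∈ R) :
    Rh M G w ⊆ R := by
  obtain ⟨I, f, hI, hf, hR⟩ := hR
  intro w' hw'
  by_contra hw'R
  obtain ⟨g, hg, hg'⟩ := hw' (I \ Nb G R) (hI.indep.subset sdiff_subset)
    (fun v hv hvw => hv.2 ⟨w, hw, hvw⟩)
  exact hg' (h.crit hI hf hR hg hw'R)

theorem Rh_spec (h : Ctx M G) (w : W) : ∃ I f, M.IsBase I ∧ IsMat G I f ∧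
    (∀ v ∈ I, v ∈ Nb G (Rh M G w) → f v ∈ Rh M G w) ∧
    (∀ v ∈ Nb G (Rh M G w), ¬ G v w → v ∈ I) := by
  obtain ⟨J, hJ⟩ := M.exists_isBasis' {v | ¬ G v w}
  obtain ⟨I, hI, hJI⟩ := hJ.indep.exists_isBase_superset
  obtain ⟨f, hf⟩ := (h.ind I).1 hI.indep
  have hfJ := hf.mono hJI
  have hS : ∀ w' ∈ (f '' J)ᶜ, w' ∉ f '' J := fun _ h => h
  have hgood : ∀ v ∈ I, v ∈ Nb G {w' | Cl G J f (f '' J)ᶜ w'} →
      f v ∈ {w' | Cl G J f (f '' J)ᶜ w'} := by
    rintro v hv ⟨w', hw', hvw'⟩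
    by_cases hvJ : v ∈ J
    · exact Cl.step hvJ hvw' hw'
    · refine Cl.base ?_
      rintro ⟨u, hu, hu'⟩
      exact hvJ (hf.1 (hJI hu) hv hu' ▸ hu)
  have hw : w ∈ {w' | Cl G J f (f '' J)ᶜ w'} := by
    refine Cl.base ?_
    rintro ⟨u, hu, rfl⟩
    exact hJ.subset hu (hfJ.2 u hu)
  have heq : Rh M G w = {w' | Cl G J f (f '' J)ᶜ w'} := by
    refine (h.Rh_subset ⟨I, f, hI, hf, hgood⟩ hw).antisymm ?_
    intro w' hw' J' hJ' hJ'w
    obtain ⟨g, hg, hg'⟩ := cl_miss h.ind hJ hfJ hS hw' hJ' hJ'w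
    exact ⟨g, hg.mono subset_union_left, fun hh => hg' (image_mono subset_union_left hh)⟩
  rw [heq]
  exact ⟨I, f, hI, hf, hgood, fun v hv hvw => hJI (cl_nb_mem h.ind hJ hfJ hS hvw hv)⟩

/-- Replacing the part of a base matched into a good set by that of another base. -/
theorem swap (h : Ctx M G) {R : Set W} (hR : Good M G R) (hB : M.IsBase B) (hm : IsMat G B m) :
    ∃ I f, M.IsBase I ∧ IsMat G I f ∧ I ∩ Nb G R = B ∩ m ⁻¹' R ∧
      ∀ v ∈ B ∩ m ⁻¹' R, f v = m v := by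
  classical
  obtain ⟨I, f, hI, hf, hR⟩ := hR
  set A := Nb G R with hA
  set Y := B ∩ m ⁻¹' R with hY
  have hYA : Y ⊆ A := fun v hv => ⟨m v, hv.2, hm.2 v hv.1⟩
  have e1 : ((I \ A) ∪ Y) ∩ A = Y := by
    ext v
    constructor
    · rintro ⟨h1 | h1, h2⟩
      · exact absurd h2 h1.2
      · exact h1
    · exact fun hv => ⟨Or.inr hv, hYA hv⟩
  have e2 : ((I \ A) ∪ Y) \ A = I \ A := by
    ext v
    constructor
    · rintro ⟨h1 | h1, h2⟩
      · exact h1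
      · exact absurd (hYA h1) h2
    · exact fun hv => ⟨Or.inl hv, hv.2⟩
  have hmat : IsMat G ((I \ A) ∪ Y) (A.piecewise m f) := by
    refine IsMat.combine (R := R) ?_ ?_ ?_ ?_
    · rw [e1]; exact hm.mono inter_subset_left
    · rw [e2]; exact hf.mono sdiff_subset
    · rw [e1]; exact fun v hv => hv.2
    · rw [e2]; exact fun v hv hv' => hv.2 ⟨f v, hv', hf.2 v hv.1⟩
  refine ⟨(I \ A) ∪ Y, A.piecewise m f, ?_, hmat, e1,
    fun v hv => piecewise_eq_of_mem _ _ _ (hYA hv)⟩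
  obtain ⟨B', hB', hsub⟩ := ((h.ind _).2 ⟨_, hmat⟩).exists_isBase_superset
  suffices hB'' : B' ⊆ (I \ A) ∪ Y by rwa [hsub.antisymm hB'']
  intro v hv
  by_contra hvn
  obtain ⟨g, hg⟩ := (h.ind _).1 hB'.indep
  have hIA : I \ A ⊆ B' := fun u hu => hsub (Or.inl hu)
  have hgR : ∀ u ∈ B', u ∉ I \ A → g u ∈ R := by
    intro u hu huI
    by_contra hn
    obtain ⟨u', hu', e⟩ := h.crit hI hf hR (hg.mono hIA) hn
    exact huI (hg.1 (hIA hu') hu e ▸ hu')
  have hT : insert v Y ⊆ B' := insert_subset hv fun u hu => hsub (Or.inr hu)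
  have hTR : ∀ u ∈ insert v Y, g u ∈ R := by
    intro u hu
    refine hgR u (hT hu) ?_
    rcases hu with rfl | hu
    · exact fun hh => hvn (Or.inl hh)
    · exact fun hh => hh.2 (hYA hu)
  have hsub2 : insert v B \ insert v Y ⊆ B := by
    rintro u ⟨hu, hu'⟩
    exact hu.resolve_left fun e => hu' (Or.inl e)
  have hm2 : IsMat G (insert v B) ((insert v Y).piecewise g m) := by
    refine IsMat.combine (R := R) (hg.mono fun u hu => hT hu.2) (hm.mono hsub2)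
      (fun u hu => hTR u hu.2) ?_
    intro u hu hu'
    exact hu.2 (Or.inr ⟨hsub2 hu, hu'⟩)
  have hvB : v ∈ B := by
    rw [hB.eq_of_subset_indep ((h.ind _).2 ⟨_, hm2⟩) (subset_insert _ _)]
    exact Or.inl rfl
  have hmv : m v ∉ R := fun hh => hvn (Or.inr ⟨hvB, hh⟩)
  obtain ⟨u, hu, hu'⟩ := h.onto hB (hm2.mono (subset_insert _ _)) (m v)
  by_cases huT : u ∈ insert v Y
  · rw [piecewise_eq_of_mem _ _ _ huT] at hu'
    exact hmv (hu' ▸ hTR u huT)
  · rw [piecewise_eq_of_notMem _ _ _ huT] at hu'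
    exact huT (Or.inl (hm.1 hu hvB hu'))

theorem good_Rh (h : Ctx M G) (w : W) : Good M G (Rh M G w) :=
  let ⟨I, f, h1, h2, h3, _⟩ := h.Rh_spec w
  ⟨I, f, h1, h2, h3⟩

/-- Inside the region of `w` everything reaches `w` along alternating paths. -/
theorem Rh_subset_cl (h : Ctx M G) (hB : M.IsBase B) (hm : IsMat G B m) {b : V} (hb : b ∈ B) :
    Rh M G (m b) ⊆ {w | Cl G ((B ∩ m ⁻¹' Rh M G (m b)) \ {b}) m {m b} w} := by
  obtain ⟨I, f, hI, hf, e, hfm⟩ := h.swap (h.good_Rh (m b)) hB hm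
  have hsub : ∀ w, Cl G ((B ∩ m ⁻¹' Rh M G (m b)) \ {b}) m {m b} w → w ∈ Rh M G (m b) := by
    intro w hw
    cases hw with
    | base hw => rw [hw]; exact h.mem_Rh _
    | step hv _ _ => exact hv.1.2
  refine h.Rh_subset ⟨I, f, hI, hf, ?_⟩ (Cl.base rfl)
  rintro v hv ⟨w, hw, hvw⟩
  have hvY : v ∈ B ∩ m ⁻¹' Rh M G (m b) := by
    rw [← e]; exact ⟨hv, w, hsub w hw, hvw⟩
  rw [hfm v hvY]
  by_cases hvb : v = b
  · subst hvb; exact Cl.base rfl
  · exact Cl.step ⟨hvY, hvb⟩ hvw hw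

theorem inner_reach (h : Ctx M G) (hB : M.IsBase B) (hm : IsMat G B m) {b : V} (hb : b ∈ B)
    {v : V} (hv : v ∈ Nb G (Rh M G (m b))) :
    Rch (Dg G B m) (insert v (B ∩ m ⁻¹' Rh M G (m b))) v b := by
  set Y := B ∩ m ⁻¹' Rh M G (m b) with hY
  have hbY : b ∈ Y := ⟨hb, h.mem_Rh _⟩
  have key : ∀ w, Cl G (Y \ {b}) m {m b} w → ∃ y ∈ Y, m y = w ∧ Rch (Dg G B m) Y y b := by
    intro w hw
    induction hw with
    | base hw => exact ⟨b, hbY, hw.symm, Rch.refl _ _ _⟩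
    | @step u w hu huw _ ih =>
      obtain ⟨y, hy, rfl, hr⟩ := ih
      exact ⟨u, hu.1, rfl, Rch.head ⟨hy.1, huw⟩ hu.1 hy hr⟩
  obtain ⟨w, hw, hvw⟩ := hv
  obtain ⟨y, hy, rfl, hr⟩ := key w (h.Rh_subset_cl hB hm hb hw)
  exact Rch.head ⟨hy.1, hvw⟩ (Or.inl rfl) (Or.inr hy) (hr.mono (subset_insert _ _))

end Ctx

/-- The in-boundary of the region of `w` with respect to the base matching `(B, m)`. -/
def Sg (M : Matroid V) (G : V → W → Prop) (B : Set V) (m : V → W) (w : W) : Set V :=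
  Nb G (Rh M G w) \ (B ∩ m ⁻¹' Rh M G w)

/-- The canonical presentation. -/
def Gc (M : Matroid V) (G : V → W → Prop) (B : Set V) (m : V → W) (v : V) (w : W) : Prop :=
  (v ∈ B ∧ m v = w) ∨ v ∈ Sg M G B m w

namespace Ctx

theorem coindep (h : Ctx M G) (hB : M.IsBase B) (hm : IsMat G B m) (w : W) :
    ∃ I, M.IsBase I ∧ ∀ v ∈ Sg M G B m w, v ∉ I := by
  obtain ⟨I, f, hI, -, e, -⟩ := h.swap (h.good_Rh w) hB hm
  refine ⟨I, hI, fun v hv hvI => hv.2 ?_⟩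
  rw [← e]
  exact ⟨hvI, hv.1⟩

theorem cocirc (h : Ctx M G) (hB : M.IsBase B) (hm : IsMat G B m) {v : V} {w : W}
    (hvw : Gc M G B m v w) : ∃ I, M.IsBase I ∧ ∀ u ∈ I, Gc M G B m u w → u = v := by
  classical
  obtain ⟨b, hb, rfl⟩ := h.onto hB hm w
  obtain ⟨I, f, hI, hf, e, hfm⟩ := h.swap (h.good_Rh (m b)) hB hm
  have hbY : b ∈ B ∩ m ⁻¹' Rh M G (m b) := ⟨hb, h.mem_Rh _⟩
  have hIb : ∀ u ∈ I, Gc M G B m u (m b) → u = b := by
    rintro u hu (hu' | hu')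
    · exact hm.1 hu'.1 hb hu'.2
    · exact absurd (e ▸ ⟨hu, hu'.1⟩) hu'.2
  rcases hvw with hv | hv
  · obtain rfl := hm.1 hv.1 hb hv.2
    exact ⟨I, hI, hIb⟩
  · have hvI : v ∉ I := fun hvI => hv.2 (e ▸ ⟨hvI, hv.1⟩)
    have hYI : B ∩ m ⁻¹' Rh M G (m b) ⊆ I := by rw [← e]; exact inter_subset_left
    have hbI : b ∈ I := hYI hbY
    have hcl : ∀ w, Cl G ((B ∩ m ⁻¹' Rh M G (m b)) \ {b}) m {m b} w →
        Cl G (I \ {b}) f {f b} w := by
      intro w hw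
      induction hw with
      | base hw => exact Cl.base (by rw [hfm b hbY]; exact hw)
      | @step u w hu huw _ ih =>
        rw [← hfm u hu.1]
        exact Cl.step ⟨hYI hu.1, hu.2⟩ huw ih
    obtain ⟨w, hw, hvw⟩ := hv.1
    have hS : ∀ w' ∈ ({f b} : Set W), w' ∉ f '' (I \ {b}) := by
      rintro w' rfl ⟨u, hu, hu'⟩
      exact hu.2 (hf.1 hu.1 hbI hu')
    obtain ⟨g, hg, hwg, -⟩ := aug (hf.mono sdiff_subset) hS
      (hcl w (h.Rh_subset_cl hB hm hb hw))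
    refine ⟨insert v (I \ {b}), hI.exchange_isBase_of_indep hvI
      ((h.ind _).2 ⟨_, hg.update hwg hvw⟩), ?_⟩
    rintro u (hu | hu) hu'
    · exact hu
    · exact absurd (hIb u hu.1 hu') hu.2

end Ctx

end MinPres
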